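import Pool.Agent.Lib.MP_6bc78b_nt.MS.GL.Iface
import Pool.Agent.Lib.MP_6bc78b_nt.MS.QZ.H76.Lam

/-! Project MS, Part GL, module DB1: the small diagonal sums. -/

set_option autoImplicit false

open Complex Filter Topology MeasureTheory ArithmeticFunction

namespace Pool.Agent.Lib.MP_6bc78b_nt.MS.GL.H23

open Pool.Agent.Lib.MP_6bc78b_nt.MS Pool.Agent.Lib.MP_6bc78b_nt.MS.P1
open Pool.Agent.Lib.MP_6bc78b_nt.MS.QZ Pool.Agent.Lib.MP_6bc78b_nt.MS.GL
open Pool.Agent.Lib.MP_6bc78b_nt.MS.QZ.H76.Lam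

namespace Db1

/-! ### Pointwise facts -/

lemma pS_pow_le (hV : VnuStatement) (S : Finset ℕ) (j n : ℕ) :
    (pS S ^ j) n ≤ (j.factorial : ℝ) := by
  rcases eq_or_ne n 0 with h | h
  · rw [h]
    simp
  · rw [hV.1 S j n h]
    split_ifs
    · exact mul_le_of_le_one_right (Nat.cast_nonneg _) (nu_le_one n)
    · positivity

lemma pS_pow_ne (hV : VnuStatement) (S : Finset ℕ) (j n : ℕ) (h : (pS S ^ j) n ≠ 0) :
    n ≠ 0 ∧ n.primeFactors ⊆ S ∧ cardFactors n = j := by
  have h0 : n ≠ 0 := by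
    rintro rfl
    simp at h
  refine ⟨h0, ?_⟩
  rw [hV.1 S j n h0] at h
  by_contra hc
  rw [if_neg hc] at h
  exact h rfl

/-- A number composed of `j` primes at most `y` is at most `y ^ j`. -/
lemma le_pow (y : ℝ) (hy : 0 ≤ y) (n : ℕ) (h0 : n ≠ 0) (h : ∀ p ∈ n.primeFactors, (p : ℝ) ≤ y) :
    (n : ℝ) ≤ y ^ cardFactors n := by
  have h' : ∀ l : List ℕ, (∀ p ∈ l, (p : ℝ) ≤ y) → ((l.prod : ℕ) : ℝ) ≤ y ^ l.length := by
    intro l
    induction l with
    | nil => simp
    | cons q l ih =>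
      intro hl
      have h1 := ih (fun p hp => hl p (List.mem_cons_of_mem _ hp))
      have h2 := hl q List.mem_cons_self
      rw [List.prod_cons, List.length_cons, pow_succ']
      rw [Nat.cast_mul]
      exact mul_le_mul h2 h1 (Nat.cast_nonneg _) hy
  have e := h' n.primeFactorsList
    (fun p hp => h p (Nat.mem_primeFactors_iff_mem_primeFactorsList.2 hp))
  rwa [Nat.prod_primeFactorsList h0, ← ArithmeticFunction.cardFactors_apply] at e

lemma pS_pow_supp (hV : VnuStatement) (y : ℝ) (hy : 0 ≤ y) (j n : ℕ)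
    (h : (pS (prs 1 y) ^ j) n ≠ 0) : (n : ℝ) ≤ y ^ j := by
  obtain ⟨h0, h1, h2⟩ := pS_pow_ne hV _ _ _ h
  have := le_pow y hy n h0 (fun p hp => mem_prs_le y p hy (h1 hp))
  rwa [h2] at this

lemma omega_lower (H : ArithmeticFunction ℝ) (k : ℕ) (hH : ∀ n, H n ≠ 0 → k ≤ cardFactors n)
    (n : ℕ) (h : (La * H) n ≠ 0) : k + 1 ≤ cardFactors n := by
  rw [ArithmeticFunction.mul_apply] at h
  obtain ⟨x, hx, hx2⟩ := Finset.exists_ne_zero_of_sum_ne_zero h
  obtain ⟨h1, h2⟩ := Nat.mem_divisorsAntidiagonal.1 hx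
  have h3 : La x.1 ≠ 0 := left_ne_zero_of_mul hx2
  have h4 : H x.2 ≠ 0 := right_ne_zero_of_mul hx2
  have hu0 : x.1 ≠ 0 := by
    intro h
    rw [h, zero_mul] at h1
    exact h2 h1.symm
  have hv0 : x.2 ≠ 0 := by
    intro h
    rw [h, mul_zero] at h1
    exact h2 h1.symm
  have hpp : IsPrimePow x.1 := ArithmeticFunction.vonMangoldt_ne_zero_iff.1 h3
  obtain ⟨q, i, hq, hi, hqi⟩ := hpp
  have hq' : q.Prime := hq.nat_prime
  rw [← h1, ArithmeticFunction.cardFactors_mul hu0 hv0, ← hqi,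
    ArithmeticFunction.cardFactors_apply_prime_pow hq']
  have := hH _ h4
  omega

lemma mul_nonneg' (f g : ArithmeticFunction ℝ) (hf : ∀ n, 0 ≤ f n) (hg : ∀ n, 0 ≤ g n) (n : ℕ) :
    0 ≤ (f * g) n := by
  rw [ArithmeticFunction.mul_apply]
  exact Finset.sum_nonneg (fun x _ => mul_nonneg (hf _) (hg _))

/-- Sums of a convolution. -/
lemma conv_le (f g : ArithmeticFunction ℝ) (hf : ∀ n, 0 ≤ f n) (hg : ∀ n, 0 ≤ g n) (N : ℕ) :
    ∑ n ∈ Finset.Icc 1 N, (f * g) n / (n : ℝ) ≤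
      (∑ u ∈ Finset.Icc 1 N, f u / (u : ℝ)) * ∑ v ∈ Finset.Icc 1 N, g v / (v : ℝ) := by
  refine le_trans (le_of_eq ?_) (double (fun u => f u / (u : ℝ)) (fun v => g v / (v : ℝ))
    (fun n => div_nonneg (hf n) (Nat.cast_nonneg _))
    (fun n => div_nonneg (hg n) (Nat.cast_nonneg _)) N)
  apply Finset.sum_congr rfl
  intro n _
  rw [ArithmeticFunction.mul_apply, Finset.sum_div]
  apply Finset.sum_congr rfl
  intro x hx
  obtain ⟨h1, -⟩ := Nat.mem_divisorsAntidiagonal.1 hx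
  have h3 : (n : ℝ) = (x.1 : ℝ) * (x.2 : ℝ) := by
    rw [← h1]
    push_cast
    ring
  rw [h3, div_mul_div_comm]

/-- The sums against `pS ^ b`. -/
lemma gen (hV : VnuStatement) (y : ℝ) (hy : 0 ≤ y) (a b : ℕ) (H : ArithmeticFunction ℝ)
    (hH : ∀ n, 0 ≤ H n) (hO : ∀ n, H n ≠ 0 → a + 1 ≤ cardFactors n) (B : ℝ)
    (hB : ∑ n ∈ Finset.Icc 1 ⌊y ^ b⌋₊, H n / (n : ℝ) ≤ B) (N : ℕ) :
    ∑ n ∈ Finset.Icc 1 N, H n * (pS (prs 1 y) ^ b) n / (n : ℝ) ≤
      if a < b then (b.factorial : ℝ) * B else 0 := by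
  classical
  by_cases hab : a < b
  · rw [if_pos hab]
    calc ∑ n ∈ Finset.Icc 1 N, H n * (pS (prs 1 y) ^ b) n / (n : ℝ)
        ≤ ∑ n ∈ Finset.Icc 1 N, if n ∈ Finset.Icc 1 ⌊y ^ b⌋₊ then
            (b.factorial : ℝ) * (H n / (n : ℝ)) else 0 := by
          apply Finset.sum_le_sum
          intro n hn
          by_cases h : (pS (prs 1 y) ^ b) n = 0
          · rw [h, mul_zero, zero_div]
            split_ifs
            · exact mul_nonneg (Nat.cast_nonneg _) (div_nonneg (hH n) (Nat.cast_nonneg _))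
            · exact le_rfl
          · have h1 := pS_pow_supp hV y hy b n h
            rw [if_pos (Finset.mem_Icc.2 ⟨(Finset.mem_Icc.1 hn).1, Nat.le_floor h1⟩)]
            rw [mul_comm (H n), mul_div_assoc]
            exact mul_le_mul_of_nonneg_right (pS_pow_le hV _ _ _)
              (div_nonneg (hH n) (Nat.cast_nonneg _))
      _ = ∑ n ∈ (Finset.Icc 1 N).filter (fun n => n ∈ Finset.Icc 1 ⌊y ^ b⌋₊),
            (b.factorial : ℝ) * (H n / (n : ℝ)) := (Finset.sum_filter _ _).symm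
      _ ≤ ∑ n ∈ Finset.Icc 1 ⌊y ^ b⌋₊, (b.factorial : ℝ) * (H n / (n : ℝ)) := by
          apply Finset.sum_le_sum_of_subset_of_nonneg
          · intro n hn
            exact (Finset.mem_filter.1 hn).2
          · intro n _ _
            exact mul_nonneg (Nat.cast_nonneg _) (div_nonneg (hH n) (Nat.cast_nonneg _))
      _ = (b.factorial : ℝ) * ∑ n ∈ Finset.Icc 1 ⌊y ^ b⌋₊, H n / (n : ℝ) :=
          (Finset.mul_sum _ _ _).symm
      _ ≤ (b.factorial : ℝ) * B := by gcongr
  · rw [if_neg hab]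
    apply le_of_eq
    apply Finset.sum_eq_zero
    intro n _
    by_cases h : (pS (prs 1 y) ^ b) n = 0
    · rw [h, mul_zero, zero_div]
    · by_cases h' : H n = 0
      · rw [h', zero_mul, zero_div]
      · exfalso
        have h1 := hO n h'
        have h2 := (pS_pow_ne hV _ _ _ h).2.2
        omega

lemma bb_bounds (lam T : ℝ) (hT : 1 < T) (hlam : 0 < lam) (u : ℕ) :
    0 ≤ bb lam T u ∧ bb lam T u ≤ La u / (lam * Real.log T) := by
  have hl : 0 < lam * Real.log T := mul_pos hlam (Real.log_pos hT)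
  have hLa : 0 ≤ ArithmeticFunction.vonMangoldt u := ArithmeticFunction.vonMangoldt_nonneg
  show 0 ≤ bbf lam T u ∧ bbf lam T u ≤ ArithmeticFunction.vonMangoldt u / (lam * Real.log T)
  unfold bbf
  split_ifs with h
  · rcases Nat.eq_zero_or_pos u with hu | hu
    · subst hu
      simp
    · have hu' : (1 : ℝ) ≤ u := by exact_mod_cast hu
      have h1 : Real.log u ≤ lam * Real.log T := by
        have := Real.log_le_log (by linarith) h
        rwa [Real.log_rpow (by linarith)] at this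
      have h2 : 0 ≤ Real.log u := Real.log_nonneg hu'
      have h3 : Real.log u / (lam * Real.log T) ≤ 1 := (div_le_one hl).2 h1
      have h4 : 0 ≤ Real.log u / (lam * Real.log T) := by positivity
      constructor
      · apply div_nonneg _ hl.le
        exact mul_nonneg hLa (by linarith)
      · apply div_le_div_of_nonneg_right _ hl.le
        exact mul_le_of_le_one_right hLa (by linarith)
  · exact ⟨le_rfl, div_nonneg hLa hl.le⟩

lemma La_conv_le (G : ArithmeticFunction ℝ) (B : ℝ) (hG : ∀ n, G n ≤ B)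
    (n : ℕ) : (La * G) n ≤ B * Real.log n := by
  rw [ArithmeticFunction.mul_apply]
  calc ∑ x ∈ n.divisorsAntidiagonal, La x.1 * G x.2
      ≤ ∑ x ∈ n.divisorsAntidiagonal, La x.1 * B := by
        apply Finset.sum_le_sum
        intro x _
        exact mul_le_mul_of_nonneg_left (hG _) (La_nonneg _)
    _ = B * Real.log n := by
        rw [Nat.sum_divisorsAntidiagonal (fun u _ => La u * B), ← Finset.sum_mul, mul_comm]
        congr 1
        exact ArithmeticFunction.vonMangoldt_sum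

lemma mono_conv (f f' g : ArithmeticFunction ℝ) (c : ℝ) (hff : ∀ n, f n ≤ f' n / c)
    (hg : ∀ n, 0 ≤ g n) (n : ℕ) : (f * g) n ≤ (f' * g) n / c := by
  rw [ArithmeticFunction.mul_apply, ArithmeticFunction.mul_apply, Finset.sum_div]
  apply Finset.sum_le_sum
  intro x _
  calc f x.1 * g x.2 ≤ f' x.1 / c * g x.2 := mul_le_mul_of_nonneg_right (hff _) (hg _)
    _ = _ := by ring

lemma mono_conv' (f g g' : ArithmeticFunction ℝ) (c : ℝ) (hgg : ∀ n, g n ≤ g' n / c)
    (hf : ∀ n, 0 ≤ f n) (n : ℕ) : (f * g) n ≤ (f * g') n / c := by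
  rw [ArithmeticFunction.mul_apply, ArithmeticFunction.mul_apply, Finset.sum_div]
  apply Finset.sum_le_sum
  intro x _
  calc f x.1 * g x.2 ≤ f x.1 * (g' x.2 / c) := mul_le_mul_of_nonneg_left (hgg _) (hf _)
    _ = _ := by ring

/-! ### Scales -/

lemma ll_tendsto : Tendsto ll atTop atTop := Real.tendsto_log_atTop.comp Real.tendsto_log_atTop

lemma dl0 (T : ℝ) : dl T 0 = 1 / ll T ^ 2 := by
  unfold dl
  simp

lemma log_yy (T : ℝ) (hT : 0 < T) : Real.log (yy T 0) = Real.log T / ll T ^ 2 := by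
  unfold yy
  rw [Real.log_rpow hT, dl0]
  ring

lemma loglog_yy (T : ℝ) (hT : 1 < T) (hl : 0 < ll T) :
    Real.log (Real.log (yy T 0)) = ll T - 2 * Real.log (ll T) := by
  rw [log_yy T (by linarith), Real.log_div (Real.log_pos hT).ne' (by positivity), Real.log_pow]
  push_cast
  rfl

lemma log_quarter : ∀ᶠ x : ℝ in atTop, Real.log x ≤ 1 / 4 * x := by
  have h := Real.isLittleO_log_id_atTop.bound (show (0 : ℝ) < 1 / 4 by norm_num)
  filter_upwards [h, eventually_ge_atTop (1 : ℝ)] with x hx hx1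
  simp only [id, Real.norm_eq_abs] at hx
  rw [abs_of_nonneg (by linarith : (0 : ℝ) ≤ x)] at hx
  exact (le_abs_self _).trans hx

lemma yy_pow (T : ℝ) (hT : 0 < T) (j : ℕ) : yy T 0 ^ j = T ^ (dl T 0 * j) := by
  unfold yy
  rw [← Real.rpow_natCast, ← Real.rpow_mul hT.le]

end Db1

open Db1 in
/-- DB1: the small diagonal sums. -/
theorem db1 (hV : VnuStatement) (hP : PsmStatement) (hM : L.MerStatement)
    (hR : Mr2Statement) : Db1Statement := by
  classical
  intro lam δ a b hlam hδ hld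
  obtain ⟨C0, hC0, hM1, -, -⟩ := hM
  obtain ⟨C1, hC1, hR1, -, -⟩ := hR
  set K1 : ℝ := (a.factorial : ℝ) / lam * (1 + C0) * 2 ^ a + (b.factorial : ℝ) * 2 ^ b with hK1
  set K2 : ℝ := (b.factorial : ℝ) * ((b : ℝ) + C0) / lam * 2 ^ a with hK2
  set K3 : ℝ := (b.factorial : ℝ) * ((b : ℝ) + C0) ^ 2 / lam * 2 ^ a with hK3
  have hK1p : 0 < K1 := by positivity
  have hK2p : 0 ≤ K2 := by positivity
  have hK3p : 0 ≤ K3 := by positivity
  have hdl : Tendsto (fun T : ℝ => (1 / ll T ^ 2) * ((a : ℝ) + b)) atTop (𝓝 (0 * ((a : ℝ) + b))) := by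
    apply Tendsto.mul_const
    simp only [one_div]
    exact tendsto_inv_atTop_zero.comp ((tendsto_pow_atTop (by norm_num)).comp ll_tendsto)
  rw [zero_mul] at hdl
  have hev : ∀ᶠ T : ℝ in atTop, 3 < T ∧ (a.factorial : ℝ) / lam ≤ T ∧ (b.factorial : ℝ) ≤ T ∧
      1 ≤ lam * Real.log T ∧ 4 + C1 + 2 * C1 ≤ ll T ∧ Real.log (ll T) ≤ 1 / 4 * ll T ∧
      (1 / ll T ^ 2) * ((a : ℝ) + b) ≤ 1 - δ - lam := by
    filter_upwards [eventually_gt_atTop (3 : ℝ), eventually_ge_atTop ((a.factorial : ℝ) / lam),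
      eventually_ge_atTop (b.factorial : ℝ),
      (Real.tendsto_log_atTop.const_mul_atTop hlam).eventually_ge_atTop 1,
      ll_tendsto.eventually_ge_atTop (4 + C1 + 2 * C1), ll_tendsto.eventually log_quarter,
      hdl.eventually_le_const (show (0 : ℝ) < 1 - δ - lam by linarith)]
      with T h1 h2 h3 h4 h5 h6 h7
    exact ⟨h1, h2, h3, h4, h5, h6, h7⟩
  obtain ⟨T0, hT0⟩ := eventually_atTop.1 hev
  refine ⟨K1 + K2 + K3, max T0 4, by positivity, lt_of_lt_of_le (by norm_num) (le_max_right _ _),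
    ?_⟩
  intro T hT
  obtain ⟨h1, h2, h3, h4, h5, h6, h7⟩ := hT0 T ((le_max_left _ _).trans hT)
  clear hev hdl
  have hSS : SS T 0 = prs 1 (yy T 0) := rfl
  rw [hSS]
  set y : ℝ := yy T 0 with hy
  set L : ℝ := Real.log T with hL
  set l : ℝ := lam * L with hl
  set N : ℕ := ⌊T ^ (1 - δ)⌋₊ with hN
  set r : ℝ := rs (prs 1 y) with hr
  have hT0' : 0 < T := by linarith
  have hT1 : 1 < T := by linarith
  have hT1' : 1 ≤ T := by linarith
  have hll : 4 ≤ ll T := by linarith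
  have hll0 : 0 < ll T := by linarith
  have hll1 : 1 ≤ ll T := by linarith
  have hLpos : 0 < L := Real.log_pos hT1
  have hlogy : Real.log y = L / ll T ^ 2 := log_yy T hT0'
  have hlogy0 : 0 < Real.log y := by
    rw [hlogy]
    positivity
  have hllogy : Real.log (Real.log y) = ll T - 2 * Real.log (ll T) := loglog_yy T hT1 hll0
  have hloglow : 2 ≤ Real.log y := by
    have e1 : ll T / 2 ≤ Real.log (Real.log y) := by
      rw [hllogy]
      linarith
    have e2 : Real.exp (Real.log (Real.log y)) = Real.log y := Real.exp_log hlogy0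
    have e3 := Real.add_one_le_exp (Real.log (Real.log y))
    rw [e2] at e3
    linarith
  have hy3 : 3 ≤ y := by
    have hy0 : 0 < y := by
      rw [hy]
      unfold yy
      exact Real.rpow_pos_of_pos hT0' _
    have e3 := Real.add_one_le_exp (Real.log y)
    rw [Real.exp_log hy0] at e3
    linarith
  have hy0 : 0 ≤ y := by linarith
  have hrb := abs_le.1 (hR1 y (by linarith))
  rw [hllogy] at hrb
  have hr1 : 1 ≤ r := by
    have := hrb.1
    linarith
  have hloglog0 : 0 ≤ Real.log (ll T) := Real.log_nonneg hll1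
  have hr2 : r ≤ 2 * ll T := by
    have := hrb.2
    linarith
  have hr0 : 0 ≤ r := by linarith
  have hl0 : 0 < l := by linarith
  -- supports
  have hab0 : 0 ≤ 1 / ll T ^ 2 := by positivity
  have hya : y ^ a * T ^ lam ≤ T ^ (1 - δ) := by
    rw [hy, yy_pow T hT0', dl0, ← Real.rpow_add hT0']
    apply Real.rpow_le_rpow_of_exponent_le hT1'
    have : 0 ≤ 1 / ll T ^ 2 * (b : ℝ) := by positivity
    rw [mul_add] at h7
    linarith
  have hyb : y ^ b ≤ T ^ (1 - δ) := by
    rw [hy, yy_pow T hT0', dl0]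
    apply Real.rpow_le_rpow_of_exponent_le hT1'
    have : 0 ≤ 1 / ll T ^ 2 * (a : ℝ) := by positivity
    rw [mul_add] at h7
    linarith
  have hTd : T ^ (1 - δ) ≤ T := by
    have := Real.rpow_le_rpow_of_exponent_le hT1' (show 1 - δ ≤ 1 by linarith)
    rwa [Real.rpow_one] at this
  have hT3 : T ≤ T ^ (3 : ℝ) := by
    have := Real.rpow_le_rpow_of_exponent_le hT1' (show (1 : ℝ) ≤ 3 by norm_num)
    rwa [Real.rpow_one] at this
  set f : ArithmeticFunction ℝ := bb lam T * pS (prs 1 y) ^ a with hf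
  set g : ArithmeticFunction ℝ := pS (prs 1 y) ^ b with hg
  have hbb0 : ∀ n, 0 ≤ bb lam T n := fun n => (bb_bounds lam T hT1 hlam n).1
  have hbb1 : ∀ n, bb lam T n ≤ La n / l := fun n => (bb_bounds lam T hT1 hlam n).2
  have hpa0 : ∀ n, 0 ≤ (pS (prs 1 y) ^ a) n := pS_pow_nonneg hV _ _
  have hg0 : ∀ n, 0 ≤ g n := pS_pow_nonneg hV _ _
  have hg1 : ∀ n, g n ≤ (b.factorial : ℝ) := pS_pow_le hV _ _
  have hf0 : ∀ n, 0 ≤ f n := mul_nonneg' _ _ hbb0 hpa0
  have hf1 : ∀ n, f n ≤ (La * pS (prs 1 y) ^ a) n / l := mono_conv _ _ _ _ hbb1 hpa0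
  have hfs : ∀ n, f n ≠ 0 → (n : ℝ) ≤ T ^ (1 - δ) := by
    intro n hn
    rw [hf, ArithmeticFunction.mul_apply] at hn
    obtain ⟨x, hx, hx2⟩ := Finset.exists_ne_zero_of_sum_ne_zero hn
    obtain ⟨e1, -⟩ := Nat.mem_divisorsAntidiagonal.1 hx
    have e3 : bb lam T x.1 ≠ 0 := left_ne_zero_of_mul hx2
    have e4 : (pS (prs 1 y) ^ a) x.2 ≠ 0 := right_ne_zero_of_mul hx2
    have e5 : (x.1 : ℝ) ≤ T ^ lam := by
      by_contra hc
      apply e3
      show bbf lam T x.1 = 0
      unfold bbf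
      rw [if_neg hc]
    have e6 := pS_pow_supp hV y hy0 a x.2 e4
    calc (n : ℝ) = (x.2 : ℝ) * (x.1 : ℝ) := by
          rw [← e1]
          push_cast
          ring
      _ ≤ y ^ a * T ^ lam := by gcongr
      _ ≤ T ^ (1 - δ) := hya
  have hgs : ∀ n, g n ≠ 0 → (n : ℝ) ≤ T ^ (1 - δ) := fun n hn =>
    (pS_pow_supp hV y hy0 b n hn).trans hyb
  have hf2 : ∀ n, f n ≤ (a.factorial : ℝ) / lam := by
    intro n
    by_cases hn : f n = 0
    · rw [hn]
      positivity
    · have e1 := (hfs n hn).trans hTd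
      have e2 := La_conv_le (pS (prs 1 y) ^ a) _ (pS_pow_le hV (prs 1 y) a) n
      have e3 : Real.log n ≤ L := by
        rcases Nat.eq_zero_or_pos n with h | h
        · rw [h]
          simp [hLpos.le]
        · exact Real.log_le_log (by exact_mod_cast h) e1
      calc f n ≤ (La * pS (prs 1 y) ^ a) n / l := hf1 n
        _ ≤ ((a.factorial : ℝ) * Real.log n) / l := by gcongr
        _ ≤ ((a.factorial : ℝ) * L) / l := by gcongr
        _ = (a.factorial : ℝ) / lam := by
            rw [hl]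
            field_simp
  have hsumLa : ∀ x : ℝ, 1 ≤ x → ∑ u ∈ Finset.Icc 1 ⌊x⌋₊, La u / (u : ℝ) ≤ Real.log x + C0 := by
    intro x hx
    have e := (abs_le.1 (hM1 x hx)).2
    have e' : ∑ u ∈ Finset.Icc 1 ⌊x⌋₊, La u / (u : ℝ) = ∑ u ∈ Finset.Icc 1 ⌊x⌋₊, MS.L.w1 u := rfl
    rw [e']
    linarith
  have hsumpa : ∀ M : ℕ, ∑ v ∈ Finset.Icc 1 M, (pS (prs 1 y) ^ a) v / (v : ℝ) ≤ r ^ a := fun M =>
    sum_le_hasSum _ (fun v _ => div_nonneg (hpa0 v) (Nat.cast_nonneg _))
      (hP.1 _ a (isPr_prs 1 y))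
  have hsumpb : ∀ M : ℕ, ∑ v ∈ Finset.Icc 1 M, g v / (v : ℝ) ≤ r ^ b := fun M =>
    sum_le_hasSum _ (fun v _ => div_nonneg (hg0 v) (Nat.cast_nonneg _))
      (hP.1 _ b (isPr_prs 1 y))
  have hsumpa0 : ∀ M : ℕ, 0 ≤ ∑ v ∈ Finset.Icc 1 M, (pS (prs 1 y) ^ a) v / (v : ℝ) := fun M =>
    Finset.sum_nonneg (fun v _ => div_nonneg (hpa0 v) (Nat.cast_nonneg _))
  have hsumLa0 : ∀ M : ℕ, 0 ≤ ∑ u ∈ Finset.Icc 1 M, La u / (u : ℝ) := fun M =>
    Finset.sum_nonneg (fun v _ => div_nonneg (La_nonneg v) (Nat.cast_nonneg _))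
  have hsumbb : ∑ u ∈ Finset.Icc 1 N, bb lam T u / (u : ℝ) ≤ 1 + C0 := by
    have e1 : ∑ u ∈ Finset.Icc 1 N, bb lam T u / (u : ℝ) ≤
        ∑ u ∈ Finset.Icc 1 ⌊T⌋₊, bb lam T u / (u : ℝ) := by
      apply Finset.sum_le_sum_of_subset_of_nonneg
      · apply Finset.Icc_subset_Icc_right
        exact Nat.floor_le_floor hTd
      · intro n _ _
        exact div_nonneg (hbb0 n) (Nat.cast_nonneg _)
    have e2 : ∑ u ∈ Finset.Icc 1 ⌊T⌋₊, bb lam T u / (u : ℝ) ≤
        ∑ u ∈ Finset.Icc 1 ⌊T ^ lam⌋₊, (La u / (u : ℝ)) / l := by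
      calc ∑ u ∈ Finset.Icc 1 ⌊T⌋₊, bb lam T u / (u : ℝ)
          ≤ ∑ u ∈ Finset.Icc 1 ⌊T⌋₊, if u ∈ Finset.Icc 1 ⌊T ^ lam⌋₊ then
              (La u / (u : ℝ)) / l else 0 := by
            apply Finset.sum_le_sum
            intro u hu
            by_cases hu' : (u : ℝ) ≤ T ^ lam
            · rw [if_pos (Finset.mem_Icc.2 ⟨(Finset.mem_Icc.1 hu).1, Nat.le_floor hu'⟩)]
              calc bb lam T u / (u : ℝ) ≤ (La u / l) / (u : ℝ) := by
                    gcongr
                    exact hbb1 u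
                _ = (La u / (u : ℝ)) / l := by ring
            · have e3 : bb lam T u = 0 := by
                show bbf lam T u = 0
                unfold bbf
                rw [if_neg hu']
              rw [e3, zero_div]
              split_ifs
              · exact div_nonneg (div_nonneg (La_nonneg u) (Nat.cast_nonneg _)) hl0.le
              · exact le_rfl
        _ = ∑ u ∈ (Finset.Icc 1 ⌊T⌋₊).filter (fun u => u ∈ Finset.Icc 1 ⌊T ^ lam⌋₊),
              (La u / (u : ℝ)) / l := (Finset.sum_filter _ _).symm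
        _ ≤ _ := by
            apply Finset.sum_le_sum_of_subset_of_nonneg
            · intro n hn
              exact (Finset.mem_filter.1 hn).2
            · intro n _ _
              exact div_nonneg (div_nonneg (La_nonneg n) (Nat.cast_nonneg _)) hl0.le
    have e4 := hsumLa (T ^ lam) (Real.one_le_rpow hT1' hlam.le)
    rw [Real.log_rpow hT0'] at e4
    rw [← Finset.sum_div] at e2
    have e5 : (lam * Real.log T + C0) / l ≤ 1 + C0 := by
      rw [div_le_iff₀ hl0]
      have : C0 ≤ C0 * l := le_mul_of_one_le_right hC0.le h4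
      calc lam * Real.log T + C0 ≤ l + C0 * l := by
            rw [hl]
            linarith
        _ = (1 + C0) * l := by ring
    calc ∑ u ∈ Finset.Icc 1 N, bb lam T u / (u : ℝ)
        ≤ (∑ u ∈ Finset.Icc 1 ⌊T ^ lam⌋₊, La u / (u : ℝ)) / l := e1.trans e2
      _ ≤ (lam * Real.log T + C0) / l := by gcongr
      _ ≤ 1 + C0 := e5
  have hsumbb0 : 0 ≤ ∑ u ∈ Finset.Icc 1 N, bb lam T u / (u : ℝ) :=
    Finset.sum_nonneg (fun v _ => div_nonneg (hbb0 v) (Nat.cast_nonneg _))
  -- sums with La against `g`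
  have hU1 : (1 : ℝ) ≤ y ^ b := one_le_pow₀ (by linarith)
  have hLaU : ∑ u ∈ Finset.Icc 1 ⌊y ^ b⌋₊, La u / (u : ℝ) ≤ ((b : ℝ) + C0) * Real.log y := by
    have e := hsumLa (y ^ b) hU1
    rw [Real.log_pow] at e
    have : C0 ≤ C0 * Real.log y := le_mul_of_one_le_right hC0.le (by linarith)
    linarith
  have hH1 : ∑ n ∈ Finset.Icc 1 ⌊y ^ b⌋₊, (La * pS (prs 1 y) ^ a) n / (n : ℝ) ≤
      ((b : ℝ) + C0) * Real.log y * r ^ a := by
    calc _ ≤ _ := conv_le La (pS (prs 1 y) ^ a) La_nonneg hpa0 _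
      _ ≤ _ := by
        apply mul_le_mul hLaU (hsumpa _) (hsumpa0 _)
        positivity
  have hLp0 : ∀ n, 0 ≤ (La * pS (prs 1 y) ^ a) n := mul_nonneg' _ _ La_nonneg hpa0
  have hH2 : ∑ n ∈ Finset.Icc 1 ⌊y ^ b⌋₊, (La * (La * pS (prs 1 y) ^ a)) n / (n : ℝ) ≤
      (((b : ℝ) + C0) * Real.log y) * (((b : ℝ) + C0) * Real.log y * r ^ a) := by
    calc _ ≤ _ := conv_le La (La * pS (prs 1 y) ^ a) La_nonneg hLp0 _
      _ ≤ _ := by
        apply mul_le_mul hLaU hH1
        · exact Finset.sum_nonneg (fun v _ => div_nonneg (hLp0 v) (Nat.cast_nonneg _))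
        · positivity
  have hO1 : ∀ n, (La * pS (prs 1 y) ^ a) n ≠ 0 → a + 1 ≤ cardFactors n := by
    intro n hn
    exact omega_lower _ a (fun m hm => (pS_pow_ne hV _ _ _ hm).2.2.ge) n hn
  have hO2 : ∀ n, (La * (La * pS (prs 1 y) ^ a)) n ≠ 0 → a + 1 ≤ cardFactors n := by
    intro n hn
    have := omega_lower _ (a + 1) hO1 n hn
    omega
  have hG1 := gen hV y hy0 a b _ hLp0 hO1 _ hH1 N
  have hG2 := gen hV y hy0 a b _ (mul_nonneg' _ _ La_nonneg hLp0) hO2 _ hH2 N
  -- the power of `ll`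
  have hsq : ∀ c : ℝ, 0 ≤ c → (if a < b then c * r ^ a else 0) ≤
      c * 2 ^ a * Real.sqrt (ll T) ^ (a + b) := by
    intro c hc
    split_ifs with hab
    · have e1 : ll T ^ a ≤ Real.sqrt (ll T) ^ (a + b) := by
        calc ll T ^ a = Real.sqrt (ll T) ^ (2 * a) := by
              rw [pow_mul, Real.sq_sqrt hll0.le]
          _ ≤ Real.sqrt (ll T) ^ (a + b) :=
              pow_le_pow_right₀ (Real.one_le_sqrt.2 hll1) (by omega)
      calc c * r ^ a ≤ c * (2 * ll T) ^ a := by gcongr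
        _ = c * 2 ^ a * ll T ^ a := by rw [mul_pow]; ring
        _ ≤ _ := by gcongr
    · positivity
  have hsq0 : 0 ≤ Real.sqrt (ll T) ^ (a + b) := by positivity
  refine ⟨?_, ?_, ?_, ?_, ?_⟩
  · intro n
    refine ⟨?_, hfs n⟩
    rw [abs_of_nonneg (hf0 n)]
    exact (hf2 n).trans (h2.trans hT3)
  · intro n
    refine ⟨?_, hgs n⟩
    rw [abs_of_nonneg (hg0 n)]
    exact (hg1 n).trans (h3.trans hT3)
  · have e1 : ∑ n ∈ Finset.Icc 1 N, f n ^ 2 / (n : ℝ) ≤
        (a.factorial : ℝ) / lam * ((1 + C0) * r ^ a) := by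
      calc ∑ n ∈ Finset.Icc 1 N, f n ^ 2 / (n : ℝ)
          ≤ ∑ n ∈ Finset.Icc 1 N, (a.factorial : ℝ) / lam * (f n / (n : ℝ)) := by
            apply Finset.sum_le_sum
            intro n _
            calc f n ^ 2 / (n : ℝ) = f n * (f n / (n : ℝ)) := by ring
              _ ≤ _ := mul_le_mul_of_nonneg_right (hf2 n) (div_nonneg (hf0 n) (Nat.cast_nonneg _))
        _ = (a.factorial : ℝ) / lam * ∑ n ∈ Finset.Icc 1 N, f n / (n : ℝ) :=
            (Finset.mul_sum _ _ _).symm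
        _ ≤ (a.factorial : ℝ) / lam * ((1 + C0) * r ^ a) := by
            gcongr
            exact (conv_le _ _ hbb0 hpa0 N).trans
              (mul_le_mul hsumbb (hsumpa N) (hsumpa0 N) (by linarith))
    have e2 : ∑ n ∈ Finset.Icc 1 N, g n ^ 2 / (n : ℝ) ≤ (b.factorial : ℝ) * r ^ b := by
      calc ∑ n ∈ Finset.Icc 1 N, g n ^ 2 / (n : ℝ)
          ≤ ∑ n ∈ Finset.Icc 1 N, (b.factorial : ℝ) * (g n / (n : ℝ)) := by
            apply Finset.sum_le_sum
            intro n _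
            calc g n ^ 2 / (n : ℝ) = g n * (g n / (n : ℝ)) := by ring
              _ ≤ _ := mul_le_mul_of_nonneg_right (hg1 n) (div_nonneg (hg0 n) (Nat.cast_nonneg _))
        _ = (b.factorial : ℝ) * ∑ n ∈ Finset.Icc 1 N, g n / (n : ℝ) :=
            (Finset.mul_sum _ _ _).symm
        _ ≤ (b.factorial : ℝ) * r ^ b := by
            gcongr
            exact hsumpb N
    have e3 : r ^ a ≤ 2 ^ a * ll T ^ (a + b) := by
      calc r ^ a ≤ (2 * ll T) ^ a := by gcongr
        _ = 2 ^ a * ll T ^ a := mul_pow _ _ _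
        _ ≤ 2 ^ a * ll T ^ (a + b) := by
            gcongr
            omega
    have e4 : r ^ b ≤ 2 ^ b * ll T ^ (a + b) := by
      calc r ^ b ≤ (2 * ll T) ^ b := by gcongr
        _ = 2 ^ b * ll T ^ b := mul_pow _ _ _
        _ ≤ 2 ^ b * ll T ^ (a + b) := by
            gcongr
            omega
    calc ∑ n ∈ Finset.Icc 1 N, (f n ^ 2 + g n ^ 2) / (n : ℝ)
        = ∑ n ∈ Finset.Icc 1 N, f n ^ 2 / (n : ℝ) + ∑ n ∈ Finset.Icc 1 N, g n ^ 2 / (n : ℝ) := by
          rw [← Finset.sum_add_distrib]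
          apply Finset.sum_congr rfl
          intro n _
          ring
      _ ≤ (a.factorial : ℝ) / lam * ((1 + C0) * (2 ^ a * ll T ^ (a + b))) +
            (b.factorial : ℝ) * (2 ^ b * ll T ^ (a + b)) := by
          gcongr
          · exact e1.trans (by gcongr)
          · exact e2.trans (by gcongr)
      _ = K1 * ll T ^ (a + b) := by
          rw [hK1]
          ring
      _ ≤ (K1 + K2 + K3) * ll T ^ (a + b) := by
          gcongr
          linarith
  · rw [abs_of_nonneg (Finset.sum_nonneg (fun n _ => div_nonneg (mul_nonneg (hf0 n) (hg0 n))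
      (Nat.cast_nonneg _)))]
    calc ∑ n ∈ Finset.Icc 1 N, f n * g n / (n : ℝ)
        ≤ ∑ n ∈ Finset.Icc 1 N, ((La * pS (prs 1 y) ^ a) n * g n / (n : ℝ)) / l := by
          apply Finset.sum_le_sum
          intro n _
          calc f n * g n / (n : ℝ) ≤ ((La * pS (prs 1 y) ^ a) n / l) * g n / (n : ℝ) := by
                have := hf1 n
                have := hg0 n
                gcongr
            _ = _ := by ring
      _ = (∑ n ∈ Finset.Icc 1 N, (La * pS (prs 1 y) ^ a) n * g n / (n : ℝ)) / l :=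
          (Finset.sum_div _ _ _).symm
      _ ≤ (if a < b then (b.factorial : ℝ) * (((b : ℝ) + C0) * Real.log y * r ^ a) else 0) / l := by
          gcongr
      _ = if a < b then ((b.factorial : ℝ) * (((b : ℝ) + C0) * Real.log y) / l) * r ^ a else 0 := by
          split_ifs
          · ring
          · simp
      _ ≤ ((b.factorial : ℝ) * (((b : ℝ) + C0) * Real.log y) / l) * 2 ^ a *
            Real.sqrt (ll T) ^ (a + b) := hsq _ (by positivity)
      _ = K2 * Real.sqrt (ll T) ^ (a + b) / ll T ^ 2 := by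
          rw [hK2, hlogy, hl]
          field_simp
      _ ≤ (K1 + K2 + K3) * Real.sqrt (ll T) ^ (a + b) / ll T ^ 2 := by
          gcongr
          linarith
  · have hLf0 : ∀ n, 0 ≤ (La * f) n := mul_nonneg' _ _ La_nonneg hf0
    have hLf1 : ∀ n, (La * f) n ≤ (La * (La * pS (prs 1 y) ^ a)) n / l :=
      mono_conv' _ _ _ _ hf1 La_nonneg
    rw [abs_of_nonneg (Finset.sum_nonneg (fun n _ => div_nonneg (mul_nonneg (hLf0 n) (hg0 n))
      (Nat.cast_nonneg _)))]
    calc ∑ n ∈ Finset.Icc 1 N, (La * f) n * g n / (n : ℝ)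
        ≤ ∑ n ∈ Finset.Icc 1 N, ((La * (La * pS (prs 1 y) ^ a)) n * g n / (n : ℝ)) / l := by
          apply Finset.sum_le_sum
          intro n _
          calc (La * f) n * g n / (n : ℝ) ≤
                ((La * (La * pS (prs 1 y) ^ a)) n / l) * g n / (n : ℝ) := by
                have := hLf1 n
                have := hg0 n
                gcongr
            _ = _ := by ring
      _ = (∑ n ∈ Finset.Icc 1 N, (La * (La * pS (prs 1 y) ^ a)) n * g n / (n : ℝ)) / l :=
          (Finset.sum_div _ _ _).symm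
      _ ≤ (if a < b then (b.factorial : ℝ) * ((((b : ℝ) + C0) * Real.log y) *
            (((b : ℝ) + C0) * Real.log y * r ^ a)) else 0) / l := by
          gcongr
      _ = if a < b then ((b.factorial : ℝ) * ((((b : ℝ) + C0) * Real.log y) *
            (((b : ℝ) + C0) * Real.log y)) / l) * r ^ a else 0 := by
          split_ifs
          · ring
          · simp
      _ ≤ ((b.factorial : ℝ) * ((((b : ℝ) + C0) * Real.log y) *
            (((b : ℝ) + C0) * Real.log y)) / l) * 2 ^ a *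
            Real.sqrt (ll T) ^ (a + b) := hsq _ (by positivity)
      _ = K3 * L * Real.sqrt (ll T) ^ (a + b) / ll T ^ 4 := by
          rw [hK3, hlogy, hl]
          field_simp
      _ ≤ K3 * L * Real.sqrt (ll T) ^ (a + b) / ll T ^ 2 := by
          gcongr
          norm_num
      _ ≤ (K1 + K2 + K3) * L * Real.sqrt (ll T) ^ (a + b) / ll T ^ 2 := by
          gcongr
          linarith

end Pool.Agent.Lib.MP_6bc78b_nt.MS.GL.H23
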