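import Pool.Agent.Lib.MP_6bc78b_nt.MS.GL.Iface2
import Pool.Agent.Lib.MP_6bc78b_nt.MS.QZ.H62.Typ
import Pool.Agent.Lib.MP_6bc78b_nt.MS.QZ.H76.Tyg

/-! Project MS, Part GL, module TYJ: the mollifier against the short prime sum, for most zeros. -/

set_option autoImplicit false

open Complex Filter Topology MeasureTheory ArithmeticFunction

namespace Pool.Agent.Lib.MP_6bc78b_nt.MS.GL.H23

open Pool.Agent.Lib.MP_6bc78b_nt.MS Pool.Agent.Lib.MP_6bc78b_nt.MS.P1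
open Pool.Agent.Lib.MP_6bc78b_nt.MS.QZ Pool.Agent.Lib.MP_6bc78b_nt.MS.GL
open Pool.Agent.Lib.MP_6bc78b_nt.MS.QZ.H62.Typ
open Pool.Agent.Lib.MP_6bc78b_nt.MS.QZ.H76.Tyg

/-- TYJ: the mollifier against the short prime sum, for most zeros. -/
theorem tyj (h3 : BadStatement) (h4 : TayStatement) (h5 : Cf0Statement) (h6 : Pi0Statement)
    (h7 : DmvStatement) (h8 : Na0Statement) (h9 : SclStatement) : TyjStatement := by
  classical
  intro th c1 c2 ε hth hth2 hε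
  obtain ⟨C1, T1, hC1, -, hbad⟩ := h3
  obtain ⟨T4, -, hcf⟩ := h5 th c1 c2 hth hth2
  obtain ⟨T5, -, hpi⟩ := h6 th c1 c2 hth hth2
  obtain ⟨C3, T6, hC3, -, hdmv⟩ := h7 (9 / 10 - th) (by linarith) (by linarith)
  obtain ⟨C4, T7, hC4, -, hna⟩ := h8 th c1 c2 hth hth2
  obtain ⟨T8, -, hscl⟩ := h9
  filter_upwards [eventually_ge_atTop T1, eventually_ge_atTop T4,
    eventually_ge_atTop T5, eventually_ge_atTop T6, eventually_ge_atTop T7,
    eventually_ge_atTop T8, eventually_ge_atTop (1 : ℝ), JJ_ge 0, cGL_ge,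
    inv_ll_small C1 (ε / 2) (by positivity),
    exp_small' (C3 * C4) C3 (2 * ε) (ε / 2) (by positivity) (by positivity)]
    with T hT1 hT4 hT5 hT6 hT7 hT8 hT0 hJ hL hdl0 hexp
  obtain ⟨hl, -, hdl, -, hRJ, -, -, hsR⟩ := hscl T hT8
  have hl0 : 0 < ll T := by linarith
  have hl1 : 1 ≤ ll T := by linarith
  set L : ℝ := cG T * Real.log T with hLdef
  have hj1 : 1 ≤ JJ T := by omega
  set s : ℝ := Real.sqrt (ll T) with hs
  have hexp' : Real.exp (4 - 2 * ε * s) * (C3 * C4 * ll T ^ 6 + C3) ≤ ε / 2 := by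
    refine le_trans (mul_le_mul_of_nonneg_right (Real.exp_le_exp.2 ?_) (by positivity)) hexp
    have h : Real.sqrt (ll T / 2) ≤ s := Real.sqrt_le_sqrt (by linarith)
    have := mul_le_mul_of_nonneg_left h (show 0 ≤ 2 * ε by positivity)
    linarith
  -- the scale `1`
  have hd1 : 1 / dl T 1 ≤ ll T ^ 2 := by
    unfold dl
    rw [one_div_div]
    apply div_le_self (by positivity)
    have := Real.add_one_le_exp ((1 : ℕ) : ℝ)
    push_cast at this ⊢
    linarith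
  have hd10 : 0 ≤ 1 / dl T 1 := by
    unfold dl
    positivity
  -- the weights
  set f : ℝ → ℝ := fun γ => (mz γ : ℝ) * wt T γ with hf
  have hf0 : ∀ γ, 0 ≤ f γ := fun γ => mul_nonneg (Nat.cast_nonneg _) (Real.exp_pos _).le
  set M : ℝ → ℂ := fun γ => MM th c1 c2 T (1 / 2 + γ * I) with hM
  set P : ℝ → ℂ := fun γ => te (KJ T 0) (((1 : ℝ) : ℂ) * P0 T γ) with hP
  set G : ℝ → ℝ := fun γ => (if RJ T 0 < ‖P0 T γ‖ then (1 : ℝ) else 0) +
      Real.exp (4 - 2 * ε * s) * ‖M γ * P γ‖ ^ 2 with hG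
  have hG0 : ∀ γ, 0 ≤ G γ := by
    intro γ
    rw [hG]
    dsimp only
    have ha : (0 : ℝ) ≤ (if RJ T 0 < ‖P0 T γ‖ then (1 : ℝ) else 0) := by split_ifs <;> norm_num
    positivity
  have hpt : ∀ γ, Real.exp (ε * s - (P0 T γ).re) < ‖M γ‖ → 1 ≤ G γ := by
    intro γ hγ
    rw [hG]
    dsimp only
    have ha : (0 : ℝ) ≤ (if RJ T 0 < ‖P0 T γ‖ then (1 : ℝ) else 0) := by split_ifs <;> norm_num
    have hc : 0 ≤ Real.exp (4 - 2 * ε * s) * ‖M γ * P γ‖ ^ 2 := by positivity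
    by_cases hx : RJ T 0 < ‖P0 T γ‖
    · rw [if_pos hx]
      linarith
    · rw [not_lt] at hx
      have ht := h4 (RJ T 0) 1 (KJ T 0) (P0 T γ) (hRJ 0 (by omega)).1 (by simp) hx
        (hRJ 0 (by omega)).2.1
      have h5' : Real.exp (2 * (P0 T γ).re) ≤ Real.exp 4 * ‖P γ‖ ^ 2 := by
        calc Real.exp (2 * (P0 T γ).re) = Real.exp (2 * 1 * (P0 T γ).re) := by
              rw [mul_one]
          _ ≤ Real.exp (4 * Real.exp (-RJ T 0)) * ‖P γ‖ ^ 2 := ht
          _ ≤ Real.exp 4 * ‖P γ‖ ^ 2 := by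
              gcongr
              have : Real.exp (-RJ T 0) ≤ 1 := by
                rw [Real.exp_le_one_iff]
                linarith [(hRJ 0 (by omega)).1]
              linarith
      have h' : 1 ≤ Real.exp (4 - 2 * ε * s) * ‖M γ * P γ‖ ^ 2 := by
        have hMs : Real.exp (ε * s - (P0 T γ).re) ^ 2 ≤ ‖M γ‖ ^ 2 :=
          pow_le_pow_left₀ (Real.exp_pos _).le hγ.le 2
        calc (1 : ℝ) = Real.exp (-(2 * ε * s)) * (Real.exp (ε * s - (P0 T γ).re) ^ 2 *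
              Real.exp (2 * (P0 T γ).re)) := by
              rw [← Real.exp_nat_mul, ← Real.exp_add, ← Real.exp_add, eq_comm,
                Real.exp_eq_one_iff]
              push_cast
              ring
          _ ≤ Real.exp (-(2 * ε * s)) * (‖M γ‖ ^ 2 * (Real.exp 4 * ‖P γ‖ ^ 2)) := by gcongr
          _ = Real.exp (4 - 2 * ε * s) * ‖M γ * P γ‖ ^ 2 := by
              rw [norm_mul, mul_pow, sub_eq_add_neg, Real.exp_add]
              ring
      linarith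
  -- the two sums
  have hS1 : ∑ γ ∈ ZZ T, f γ * (if RJ T 0 < ‖P0 T γ‖ then (1 : ℝ) else 0) ≤ ε / 2 * L := by
    have e : ∑ γ ∈ ZZ T, f γ * (if RJ T 0 < ‖P0 T γ‖ then (1 : ℝ) else 0) =
        ∑ γ ∈ (ZZ T).filter (fun γ => RJ T 0 < ‖P0 T γ‖), f γ := by
      rw [Finset.sum_filter]
      apply Finset.sum_congr rfl
      intro γ _
      split_ifs <;> simp
    have h := hbad T hT1 0 (by omega)
    rw [fsum_filter] at h
    rw [e]
    calc ∑ γ ∈ (ZZ T).filter (fun γ => RJ T 0 < ‖P0 T γ‖), f γ ≤ C1 * dl T 0 * L := h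
      _ ≤ ε / 2 * L := by gcongr
  have hS3 : ∑ γ ∈ ZZ T, f γ * (Real.exp (4 - 2 * ε * s) * ‖M γ * P γ‖ ^ 2) ≤ ε / 2 * L := by
    have ecf := fun n => (hcf T hT4 1 1 0 (by simp) hj1 (by simp) n).1.1
    have h := hdmv T hT6 (bet th c1 c2 T * gA 1 T 1 0) ecf
    have ee : (1 : ℝ) - (9 / 10 - th) = th + 1 / 10 := by ring
    rw [fsum_all, ee] at h
    have epi : ∀ γ : ℝ, dpoly (bet th c1 c2 T * gA 1 T 1 0) (T ^ (th + 1 / 10))
        (1 / 2 + γ * I) = M γ * P γ := by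
      intro γ
      rw [(hpi T hT5 1 1 0 (by simp) hj1 (by simp) (1 / 2 + γ * I)).1, pow_zero, mul_one,
        Finset.prod_range_one]
      rfl
    simp only [epi] at h
    have hn : ∑ n ∈ Finset.Icc 1 ⌊T ^ (th + 1 / 10)⌋₊,
        ((bet th c1 c2 T * gA 1 T 1 0) n) ^ 2 / (n : ℝ) ≤ C4 * ll T ^ 6 := by
      calc ∑ n ∈ Finset.Icc 1 ⌊T ^ (th + 1 / 10)⌋₊,
            ((bet th c1 c2 T * gA 1 T 1 0) n) ^ 2 / (n : ℝ)
          ≤ ∑ n ∈ Finset.Icc 1 ⌊T⌋₊, ((bet th c1 c2 T * gA 1 T 1 0) n) ^ 2 / (n : ℝ) := by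
            apply Finset.sum_le_sum_of_subset_of_nonneg
            · apply Finset.Icc_subset_Icc_right
              apply Nat.floor_le_floor
              calc T ^ (th + 1 / 10) ≤ T ^ (1 : ℝ) :=
                    Real.rpow_le_rpow_of_exponent_le hT0 (by linarith)
                _ = T := Real.rpow_one T
            · intro n _ _
              positivity
        _ ≤ C4 * ll T ^ 2 * (1 / dl T 1) ^ 2 := hna T hT7 1 le_rfl hj1
        _ ≤ C4 * ll T ^ 2 * (ll T ^ 2) ^ 2 := by gcongr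
        _ = C4 * ll T ^ 6 := by ring
    calc ∑ γ ∈ ZZ T, f γ * (Real.exp (4 - 2 * ε * s) * ‖M γ * P γ‖ ^ 2)
        = Real.exp (4 - 2 * ε * s) * ∑ γ ∈ ZZ T, f γ * ‖M γ * P γ‖ ^ 2 := by
          rw [Finset.mul_sum]
          apply Finset.sum_congr rfl
          intro γ _
          ring
      _ ≤ Real.exp (4 - 2 * ε * s) * (C3 * (L * ∑ n ∈ Finset.Icc 1 ⌊T ^ (th + 1 / 10)⌋₊,
            ((bet th c1 c2 T * gA 1 T 1 0) n) ^ 2 / (n : ℝ) + 1)) := by
          apply mul_le_mul_of_nonneg_left h (Real.exp_pos _).le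
      _ ≤ Real.exp (4 - 2 * ε * s) * (C3 * (L * (C4 * ll T ^ 6) + L)) := by
          gcongr
      _ = Real.exp (4 - 2 * ε * s) * (C3 * C4 * ll T ^ 6 + C3) * L := by ring
      _ ≤ ε / 2 * L := by gcongr
  refine (le_of_eq (fsum_filter T
    (fun γ => Real.exp (ε * s - (P0 T γ).re) < ‖M γ‖) f)).trans ?_
  calc ∑ γ ∈ (ZZ T).filter (fun γ => Real.exp (ε * s - (P0 T γ).re) < ‖M γ‖), f γ
      ≤ ∑ γ ∈ (ZZ T).filter (fun γ => Real.exp (ε * s - (P0 T γ).re) < ‖M γ‖), f γ * G γ := by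
        apply Finset.sum_le_sum
        intro γ hγ
        have := hpt γ (Finset.mem_filter.1 hγ).2
        nlinarith [hf0 γ]
    _ ≤ ∑ γ ∈ ZZ T, f γ * G γ := by
        apply Finset.sum_le_sum_of_subset_of_nonneg (Finset.filter_subset _ _)
        intro γ _ _
        exact mul_nonneg (hf0 γ) (hG0 γ)
    _ = ∑ γ ∈ ZZ T, f γ * (if RJ T 0 < ‖P0 T γ‖ then (1 : ℝ) else 0) +
          ∑ γ ∈ ZZ T, f γ * (Real.exp (4 - 2 * ε * s) * ‖M γ * P γ‖ ^ 2) := by
        rw [← Finset.sum_add_distrib]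
        apply Finset.sum_congr rfl
        intro γ _
        rw [hG]
        ring
    _ ≤ ε / 2 * L + ε / 2 * L := by linarith
    _ = ε * L := by ring

end Pool.Agent.Lib.MP_6bc78b_nt.MS.GL.H23
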